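import Mathlib
import Pool.Agent.W275.CP.Stm

/-!
CP-GOOD: many integers have no small prime factors and few large ones.
-/

set_option autoImplicit false

namespace Pool.Agent.W816.CP

open Finset Pool.Agent.W275.CP

lemma card_lin {p m r a n : ℕ} (hp : p.Prime) (hm : ¬ p ∣ m) :
    ((Ico a (a + n)).filter fun y => p ∣ r + m * y).card ≤ n / p + 1 := by
  have hinj : ∀ y₁ ∈ (Ico a (a + n)).filter (fun y => p ∣ r + m * y),
      ∀ y₂ ∈ (Ico a (a + n)).filter (fun y => p ∣ r + m * y), y₁ < y₂ →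
      (y₁ - a) / p ≠ (y₂ - a) / p := by
    intro y₁ h1 y₂ h2 hlt
    rw [mem_filter, mem_Ico] at h1 h2
    obtain ⟨e, rfl⟩ : ∃ e, y₂ = y₁ + e := ⟨y₂ - y₁, by omega⟩
    have hd : p ∣ m * e := by
      have h3 := (Nat.dvd_sub h2.2 h1.2)
      have e1 : r + m * (y₁ + e) - (r + m * y₁) = m * e := by
        rw [Nat.mul_add]; omega
      rwa [e1] at h3
    have hpe : p ∣ e := (hp.dvd_mul.1 hd).resolve_left hm
    have hle : p ≤ e := Nat.le_of_dvd (by omega) hpe
    have h4 : (y₁ - a) / p + 1 ≤ (y₁ + e - a) / p := by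
      rw [Nat.le_div_iff_mul_le hp.pos, Nat.add_mul]
      have := Nat.div_mul_le_self (y₁ - a) p
      omega
    omega
  have hc : ((Ico a (a + n)).filter fun y => p ∣ r + m * y).card ≤ (range (n / p + 1)).card := by
    apply card_le_card_of_injOn (fun y => (y - a) / p)
    · intro y hy
      have hy' := mem_filter.1 hy
      rw [mem_Ico] at hy'
      have h1 : (y - a) / p ≤ n / p := Nat.div_le_div_right (by omega)
      simp only [coe_range, Set.mem_Iio]
      omega
    · intro y₁ h1 y₂ h2 he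
      rcases lt_trichotomy y₁ y₂ with h | h | h
      · exact absurd he (hinj y₁ h1 y₂ h2 h)
      · exact h
      · exact absurd he.symm (hinj y₂ h2 y₁ h1 h)
  rwa [card_range] at hc

lemma Q0_dvd {K p : ℕ} (hp : p.Prime) (h : p ∣ Q0 K) : p ≤ K := by
  unfold Q0 at h
  rw [Prime.dvd_finsetProd_iff hp.prime] at h
  obtain ⟨q, hq, hpq⟩ := h
  rw [mem_filter, mem_range] at hq
  have := Nat.le_of_dvd hq.2.pos hpq
  omega

lemma Q0_pos (K : ℕ) : 0 < Q0 K := by
  unfold Q0
  apply prod_pos
  intro p hp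
  exact (mem_filter.1 hp).2.pos

/-- `log` is eventually small -/
lemma log_small {a : ℝ} (ha : 0 < a) (b c : ℝ) : ∃ y₀ : ℝ, 0 < y₀ ∧ ∀ y : ℝ, y₀ ≤ y →
    b + c * Real.log y ≤ a * y := by
  have h1 := (Real.isLittleO_log_id_atTop.def (show 0 < a / 2 / (|c| + 1) by positivity))
  have h2 := Filter.eventually_ge_atTop (max 1 (2 * |b| / a))
  obtain ⟨X, hX⟩ := Filter.eventually_atTop.1 (h1.and h2)
  refine ⟨max X 1, by positivity, fun y hy => ?_⟩
  obtain ⟨h3, h4⟩ := hX y ((le_max_left _ _).trans hy)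
  have hy1 : 1 ≤ y := (le_max_left _ _).trans h4
  have hy2 : 2 * |b| / a ≤ y := (le_max_right _ _).trans h4
  rw [div_le_iff₀ ha] at hy2
  simp only [id, Real.norm_eq_abs] at h3
  rw [abs_of_pos (by linarith : 0 < y)] at h3
  have hc1 : 0 < |c| + 1 := by positivity
  have h5 : c * Real.log y ≤ a / 2 * y := by
    calc c * Real.log y ≤ |c| * |Real.log y| := by
          rw [← abs_mul]; exact le_abs_self _
      _ ≤ (|c| + 1) * (a / 2 / (|c| + 1) * y) := by
          apply mul_le_mul (by linarith) h3 (abs_nonneg _) (by positivity)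
      _ = a / 2 * y := by field_simp
  have h6 : b ≤ |b| := le_abs_self b
  nlinarith

theorem good : S_good := by
  classical
  intro η hη
  refine ⟨max 7 ⌈8 / η⌉₊, fun K hK δ hδ => ?_⟩
  have hK7 : 7 ≤ K := (le_max_left _ _).trans hK
  have hK0 : (0:ℝ) < K := by exact_mod_cast (by omega : 0 < K)
  have hKη : 8 / η ≤ (K:ℝ) := (Nat.le_ceil _).trans (by exact_mod_cast (le_max_right _ _).trans hK)
  rw [div_le_iff₀ hη] at hKη
  set M := Q0 K with hM
  have hM0 : (0:ℝ) < M := by exact_mod_cast Q0_pos K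
  have hM1 : (1:ℝ) ≤ M := by exact_mod_cast Q0_pos K
  obtain ⟨y₀, hy₀, hlog⟩ := log_small (show 0 < 3 / 8 * (δ / M) by positivity)
    (7 / 8 + (1 + Real.log (1 + δ)) / η) (1 / η)
  refine ⟨max y₀ (max 1 (M / δ)), by positivity, fun y hy => ?_⟩
  have hy1 : y₀ ≤ y := (le_max_left _ _).trans hy
  have hy2 : 1 ≤ y := ((le_max_left _ _).trans (le_max_right _ _)).trans hy
  have hy3 : M / δ ≤ y := ((le_max_right _ _).trans (le_max_right _ _)).trans hy
  have hy0 : 0 < y := by linarith
  rw [div_le_iff₀ hδ] at hy3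
  have hl := hlog y hy1
  set A := ⌈(y - 1) / M⌉₊ with hA
  set B := ⌊((1 + δ) * y - 1) / M⌋₊ with hB
  set N := B + 1 - A with hN
  have hAu : (A:ℝ) < (y - 1) / M + 1 := Nat.ceil_lt_add_one (div_nonneg (by linarith) hM0.le)
  have hAl : (y - 1) / M ≤ A := Nat.le_ceil _
  have hnum : 0 ≤ ((1 + δ) * y - 1) / M := div_nonneg (by nlinarith) hM0.le
  have hBu : (B:ℝ) ≤ ((1 + δ) * y - 1) / M := Nat.floor_le hnum
  have hBl : ((1 + δ) * y - 1) / M < B + 1 := Nat.lt_floor_add_one _
  have hdiff : ((1 + δ) * y - 1) / M - (y - 1) / M = δ * y / M := by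
    rw [← sub_div]; congr 1; ring
  have hAB : A ≤ B + 1 := by
    have h1 : 1 ≤ δ * y / M := by rw [le_div_iff₀ hM0]; linarith
    have : (A:ℝ) < (B:ℝ) + 1 := by linarith
    exact_mod_cast this.le
  have hNr : (N:ℝ) = B + 1 - A := by
    rw [hN, Nat.cast_sub hAB]; push_cast; ring
  have hNl : δ * y / M - 1 ≤ N := by rw [hNr]; linarith
  have hAN : A + N = B + 1 := by omega
  set I := Ico A (A + N) with hI
  have hIcard : I.card = N := by rw [hI, Nat.card_Ico]; omega
  have hIy : ∀ n ∈ I, y ≤ ((1 + M * n : ℕ) : ℝ) ∧ ((1 + M * n : ℕ) : ℝ) ≤ (1 + δ) * y := by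
    intro n hn
    rw [hI, mem_Ico] at hn
    have h1 : (A:ℝ) ≤ n := by exact_mod_cast hn.1
    have h2 : (n:ℝ) ≤ B := by exact_mod_cast (by omega : n ≤ B)
    have h3 : (y - 1) / M ≤ n := hAl.trans h1
    have h4 : (n:ℝ) ≤ ((1 + δ) * y - 1) / M := h2.trans hBu
    rw [div_le_iff₀ hM0] at h3
    rw [le_div_iff₀ hM0] at h4
    push_cast
    constructor <;> linarith
  set U := ⌊(1 + δ) * y⌋₊ with hU
  set P := (Ioc K U).filter Nat.Prime with hP
  have hw : ∀ n ∈ I, w K (1 + M * n) ≤ ∑ p ∈ P, if p ∣ 1 + M * n then (1:ℝ) / p else 0 := by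
    intro n hn
    unfold w
    rw [← sum_filter]
    apply sum_le_sum_of_subset_of_nonneg
    · intro p hp
      rw [mem_filter, Nat.mem_primeFactors] at hp
      rw [mem_filter, hP, mem_filter, mem_Ioc]
      refine ⟨⟨⟨hp.2, ?_⟩, hp.1.1⟩, hp.1.2.1⟩
      have h1 : p ≤ 1 + M * n := Nat.le_of_dvd (by omega) hp.1.2.1
      exact h1.trans (Nat.le_floor (hIy n hn).2)
    · intro p _ _
      positivity
  have hsum : ∑ n ∈ I, w K (1 + M * n) ≤ N / K + (1 + Real.log ((1 + δ) * y)) := by
    calc ∑ n ∈ I, w K (1 + M * n)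
        ≤ ∑ n ∈ I, ∑ p ∈ P, (if p ∣ 1 + M * n then (1:ℝ) / p else 0) := sum_le_sum hw
      _ = ∑ p ∈ P, ∑ n ∈ I, (if p ∣ 1 + M * n then (1:ℝ) / p else 0) := sum_comm
      _ = ∑ p ∈ P, ((I.filter fun n => p ∣ 1 + M * n).card : ℝ) * (1 / p) := by
          apply sum_congr rfl
          intro p _
          rw [← sum_filter, sum_const, nsmul_eq_mul]
      _ ≤ ∑ p ∈ P, ((N:ℝ) * ((p:ℝ) ^ 2)⁻¹ + (p:ℝ)⁻¹) := by
          apply sum_le_sum
          intro p hp
          rw [hP, mem_filter, mem_Ioc] at hp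
          have hp0 : (0:ℝ) < p := by exact_mod_cast hp.2.pos
          have h1 : ¬ p ∣ M := fun h => by have := Q0_dvd hp.2 h; omega
          have h2 := card_lin (r := 1) (a := A) (n := N) hp.2 h1
          have h3 : ((I.filter fun n => p ∣ 1 + M * n).card : ℝ) ≤ N / p + 1 := by
            calc ((I.filter fun n => p ∣ 1 + M * n).card : ℝ) ≤ ((N / p + 1 : ℕ) : ℝ) := by
                  exact_mod_cast h2
              _ ≤ N / p + 1 := by
                  push_cast
                  have := Nat.cast_div_le (α := ℝ) (m := N) (n := p)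
                  linarith
          calc ((I.filter fun n => p ∣ 1 + M * n).card : ℝ) * (1 / p) ≤ (N / p + 1) * (1 / p) :=
                mul_le_mul_of_nonneg_right h3 (by positivity)
            _ = (N:ℝ) * ((p:ℝ) ^ 2)⁻¹ + (p:ℝ)⁻¹ := by field_simp
      _ ≤ ∑ m ∈ Ioc K U, ((N:ℝ) * ((m:ℝ) ^ 2)⁻¹ + (m:ℝ)⁻¹) := by
          apply sum_le_sum_of_subset_of_nonneg (filter_subset _ _)
          intro m _ _
          positivity
      _ = N * ∑ m ∈ Ioc K U, ((m:ℝ) ^ 2)⁻¹ + ∑ m ∈ Ioc K U, (m:ℝ)⁻¹ := by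
          rw [sum_add_distrib, mul_sum]
      _ ≤ N * (K:ℝ)⁻¹ + (1 + Real.log ((1 + δ) * y)) := by
          apply add_le_add
          · apply mul_le_mul_of_nonneg_left _ (by positivity)
            by_cases hKU : K ≤ U
            · have := sum_Ioc_inv_sq_le_sub (α := ℝ) (k := K) (n := U) (by omega) hKU
              have h0 : (0:ℝ) ≤ (U:ℝ)⁻¹ := by positivity
              linarith
            · rw [Ioc_eq_empty (by omega), sum_empty]
              positivity
          · have h1 : ∑ m ∈ Ioc K U, (m:ℝ)⁻¹ ≤ ∑ m ∈ Icc 1 U, (m:ℝ)⁻¹ := by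
              apply sum_le_sum_of_subset_of_nonneg
              · intro m hm
                rw [mem_Ioc] at hm
                rw [mem_Icc]
                omega
              · intro m _ _
                positivity
            have h2 : ∑ m ∈ Icc 1 U, (m:ℝ)⁻¹ = (harmonic U : ℝ) := by
              rw [harmonic_eq_sum_Icc]
              push_cast
              rfl
            have h3 := harmonic_le_one_add_log U
            have hU0 : 0 < U := Nat.floor_pos.2 (by nlinarith)
            have h4 : Real.log U ≤ Real.log ((1 + δ) * y) := by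
              apply Real.log_le_log (by exact_mod_cast hU0)
              exact Nat.floor_le (by positivity)
            linarith
      _ = N / K + (1 + Real.log ((1 + δ) * y)) := by rw [div_eq_mul_inv]
  -- the bad ones
  set bad := I.filter (fun n => η < w K (1 + M * n)) with hbad
  have hbadc : (bad.card : ℝ) * η ≤ N / K + (1 + Real.log ((1 + δ) * y)) := by
    refine le_trans ?_ hsum
    calc (bad.card : ℝ) * η = ∑ _n ∈ bad, η := by rw [sum_const, nsmul_eq_mul]
      _ ≤ ∑ n ∈ bad, w K (1 + M * n) := sum_le_sum (fun n hn => (mem_filter.1 hn).2.le)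
      _ ≤ ∑ n ∈ I, w K (1 + M * n) := by
          apply sum_le_sum_of_subset_of_nonneg (filter_subset _ _)
          intro n _ _
          unfold w
          positivity
  set gd := I.filter (fun n => w K (1 + M * n) ≤ η) with hgd
  have hsplit : gd.card + bad.card = N := by
    rw [← hIcard, hgd, hbad]
    have := card_filter_add_card_filter_not (s := I) (fun n => w K (1 + M * n) ≤ η)
    simpa only [not_le] using this
  have hinj : Function.Injective (fun n : ℕ => 1 + M * n) := by
    intro a b hab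
    have h1 : M * a = M * b := by simpa using hab
    exact Nat.eq_of_mul_eq_mul_left (Q0_pos K) h1
  refine ⟨gd.image (fun n => 1 + M * n), ?_, ?_⟩
  · rw [card_image_of_injective _ hinj]
    have hg : (gd.card : ℝ) = N - bad.card := by
      rw [← hsplit]; push_cast; ring
    rw [hg]
    have h1 : (bad.card : ℝ) ≤ N / 8 + (1 + Real.log ((1 + δ) * y)) / η := by
      have h2 : (bad.card : ℝ) ≤ (N / K + (1 + Real.log ((1 + δ) * y))) / η := by
        rw [le_div_iff₀ hη]; exact hbadc
      refine h2.trans ?_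
      rw [add_div]
      apply add_le_add_left
      rw [div_div]
      apply div_le_div_of_nonneg_left (by positivity) (by norm_num) hKη
    have h3 : Real.log ((1 + δ) * y) = Real.log (1 + δ) + Real.log y :=
      Real.log_mul (by positivity) hy0.ne'
    have h4 : (7 / 8 + (1 + Real.log (1 + δ)) / η) + 1 / η * Real.log y =
        7 / 8 + (1 + Real.log ((1 + δ) * y)) / η := by
      rw [h3]; ring
    rw [h4] at hl
    have h5 : 3 / 8 * (δ / M) * y = 3 / 8 * (δ * y / M) := by ring
    have h6 : δ * y / (2 * M) = 1 / 2 * (δ * y / M) := by field_simp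
    rw [h5] at hl
    rw [h6]
    linarith
  · intro q hq
    rw [mem_image] at hq
    obtain ⟨n, hn, rfl⟩ := hq
    have hn' := mem_filter.1 hn
    refine ⟨by omega, ?_, hn'.2, (hIy n hn'.1).1, (hIy n hn'.1).2⟩
    have : Nat.Coprime (1 + M * n) M := by
      rw [Nat.coprime_add_mul_left_left]
      exact Nat.coprime_one_left M
    exact this

end Pool.Agent.W816.CP
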