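import Mathlib
import Pool.Agent.W275.CP.Stm
import Pool.Agent.W816.CP.Good

/-!
CP-SIEVE: few values are not squarefree.
-/

set_option autoImplicit false

namespace Pool.Agent.W816.CP

open Finset Pool.Agent.W275.CP

lemma primeCounting_le_mul (δ : ℝ) (hδ : 0 < δ) :
    ∃ y₀ : ℕ, ∀ n : ℕ, y₀ ≤ n → (Nat.primeCounting n : ℝ) ≤ δ * n := by
  have h1 := Chebyshev.eventually_primeCounting_le (ε := 1) one_pos
  have h2 : ∀ᶠ x : ℝ in Filter.atTop, (Real.log 4 + 1) / δ ≤ Real.log x :=
    Real.tendsto_log_atTop.eventually_ge_atTop _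
  obtain ⟨X, hX⟩ := Filter.eventually_atTop.mp (h1.and (h2.and (Filter.eventually_ge_atTop (2:ℝ))))
  refine ⟨⌈X⌉₊, fun n hn => ?_⟩
  have hn' : X ≤ (n : ℝ) := (Nat.le_ceil X).trans (by exact_mod_cast hn)
  obtain ⟨h3, h4, h5⟩ := hX n hn'
  rw [Nat.floor_natCast] at h3
  have hlog : 0 < Real.log n := Real.log_pos (by linarith)
  refine h3.trans ?_
  rw [div_le_iff₀ hlog]
  rw [div_le_iff₀ hδ] at h4
  have hn0 : (0:ℝ) ≤ n := by positivity
  nlinarith

lemma card_pf {q : ℕ} (hq : 0 < q) : (q.primeFactors.card : ℝ) ≤ 1 / Real.log 2 * Real.log q := by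
  have h1 : 2 ^ q.primeFactors.card ≤ q := by
    calc 2 ^ q.primeFactors.card = ∏ _p ∈ q.primeFactors, 2 := by rw [prod_const]
      _ ≤ ∏ p ∈ q.primeFactors, p := prod_le_prod' (fun p hp => (Nat.prime_of_mem_primeFactors hp).two_le)
      _ ≤ q := Nat.le_of_dvd hq (Nat.prod_primeFactors_dvd q)
  have h2 : (2:ℝ) ^ q.primeFactors.card ≤ q := by exact_mod_cast h1
  have h3 := Real.log_le_log (by positivity) h2
  rw [Real.log_pow] at h3
  have h4 : 0 < Real.log 2 := Real.log_pos (by norm_num)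
  rw [one_div, ← div_eq_inv_mul, le_div_iff₀ h4]
  exact h3

theorem sieve (hq2 : S_quad) (hl2 : S_lin) (hf : S_fac) : S_sieve := by
  classical
  intro j hj η hη
  refine ⟨max 7 ⌈32 / η⌉₊, fun K hK δ hδ => ?_⟩
  have hj1 : 0 < j ∧ j ≤ 7 := by
    unfold J at hj
    simp only [mem_insert, mem_singleton] at hj
    omega
  have hK7 : 7 ≤ K := (le_max_left _ _).trans hK
  have hK0 : (0:ℝ) < K := by exact_mod_cast (by omega : 0 < K)
  have hKη : 32 / η ≤ (K:ℝ) := (Nat.le_ceil _).trans (by exact_mod_cast (le_max_right _ _).trans hK)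
  rw [div_le_iff₀ hη] at hKη
  set M := Q0 K with hM
  have hM0 : (0:ℝ) < M := by exact_mod_cast Q0_pos K
  have hM1 : (1:ℝ) ≤ M := by exact_mod_cast Q0_pos K
  set C : ℝ := (x0 j K : ℝ) + M * (1 + δ) with hC
  have hC1 : 1 ≤ C := by
    have : (0:ℝ) ≤ x0 j K := by positivity
    nlinarith
  obtain ⟨t₀, ht₀⟩ := primeCounting_le_mul (η * δ / (128 * C)) (by positivity)
  obtain ⟨y₀, hy₀, hlog⟩ := log_small (show 0 < η / 8 * δ by positivity)
    (η / 8 + 1 / Real.log 2 * Real.log M) (1 / Real.log 2)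
  refine ⟨max (max 1 t₀) (max ⌈y₀⌉₊ ⌈2 / δ⌉₊), fun Y hY q hq hcop hw hlt => ?_⟩
  have hY1 : 1 ≤ Y := ((le_max_left _ _).trans (le_max_left _ _)).trans hY
  have hYt : t₀ ≤ Y := ((le_max_right _ _).trans (le_max_left _ _)).trans hY
  have hYy : y₀ ≤ (Y:ℝ) := (Nat.le_ceil _).trans
    (by exact_mod_cast ((le_max_left _ _).trans (le_max_right _ _)).trans hY)
  have hYd : 2 / δ ≤ (Y:ℝ) := (Nat.le_ceil _).trans
    (by exact_mod_cast ((le_max_right _ _).trans (le_max_right _ _)).trans hY)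
  rw [div_le_iff₀ hδ] at hYd
  have hY0 : (1:ℝ) ≤ Y := by exact_mod_cast hY1
  set n := ⌊δ * Y⌋₊ with hn
  have hnu : (n:ℝ) ≤ δ * Y := Nat.floor_le (by positivity)
  have hnl : δ * Y < n + 1 := Nat.lt_floor_add_one _
  have hxu : ∀ y ∈ Ico Y (Y + n), (xx j K y : ℝ) ≤ C * Y := by
    intro y hy
    rw [mem_Ico] at hy
    have h1 : (y:ℝ) ≤ (1 + δ) * Y := by
      have : (y:ℝ) ≤ (Y:ℝ) + n := by exact_mod_cast hy.2.le
      linarith
    unfold xx
    push_cast
    have h2 : (0:ℝ) ≤ x0 j K := by positivity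
    have h3 : (M:ℝ) * y ≤ M * ((1 + δ) * Y) := mul_le_mul_of_nonneg_left h1 hM0.le
    have h4 : (x0 j K : ℝ) ≤ x0 j K * Y := le_mul_of_one_le_right h2 hY0
    rw [hC]
    linarith
  have hxl : ∀ y ∈ Ico Y (Y + n), M * Y ≤ xx j K y := by
    intro y hy
    rw [mem_Ico] at hy
    have h1 : M * Y ≤ M * y := Nat.mul_le_mul_left M hy.1
    exact h1.trans (Nat.le_add_left _ _)
  set T := ⌊2 * (C * Y)⌋₊ with hT
  set P1 := q.primeFactors.filter (fun p => K < p) with hP1
  set P2 := (Ioc K T).filter (fun p => p.Prime ∧ ¬ p ∣ q) with hP2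
  have hndM : ∀ p, p.Prime → K < p → ¬ p ∣ M := by
    intro p hp hKp h
    have := Q0_dvd hp h
    omega
  set L : ℕ → Finset ℕ := fun p => (Ico Y (Y + n)).filter fun y => p ∣ x0 j K + M * y with hL
  set Qe : ℤ → ℕ → Finset ℕ := fun e p => (Ico Y (Y + n)).filter
    fun y => ((p : ℤ) ^ 2 ∣ (((x0 j K + M * y : ℕ) : ℤ)) ^ 2 - e) with hQe
  have hsub : (Ico Y (Y + n)).filter (fun y => ¬ Squarefree (val j (xx j K y) q)) ⊆
      P1.biUnion L ∪ P2.biUnion (fun p => Qe (4 * j * q ^ 2) p ∪ Qe (-(4 * j * q ^ 2)) p) := by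
    intro y hy
    rw [mem_filter] at hy
    have h16 : 16 * j ^ 2 * q ^ 4 < xx j K y ^ 4 :=
      lt_of_lt_of_le hlt (Nat.pow_le_pow_left (hxl y hy.1) 4)
    obtain ⟨p, hp, hKp, h⟩ := hf j hj K y q hK7 hq hcop h16 hy.2
    rw [mem_union, mem_biUnion, mem_biUnion]
    rcases h with ⟨h1, h2⟩ | ⟨h1, h2, h3⟩
    · left
      refine ⟨p, ?_, ?_⟩
      · rw [hP1, mem_filter, Nat.mem_primeFactors]
        exact ⟨⟨hp, h1, hq.ne'⟩, hKp⟩
      · simp only [hL]
        rw [mem_filter]
        exact ⟨hy.1, h2⟩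
    · right
      refine ⟨p, ?_, ?_⟩
      · rw [hP2, mem_filter, mem_Ioc]
        refine ⟨⟨hKp, ?_⟩, hp, h1⟩
        apply Nat.le_floor
        have h4 : (p:ℝ) ≤ 2 * xx j K y := by exact_mod_cast h2
        have h5 := hxu y hy.1
        linarith
      · rw [mem_union]
        rcases h3 with h3 | h3
        · left
          simp only [hQe]
          rw [mem_filter]
          exact ⟨hy.1, h3⟩
        · right
          simp only [hQe]
          rw [mem_filter]
          exact ⟨hy.1, h3⟩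
  have hc1 : ((Ico Y (Y + n)).filter (fun y => ¬ Squarefree (val j (xx j K y) q))).card ≤
      ∑ p ∈ P1, (n / p + 1) + ∑ p ∈ P2, (2 * (n / p ^ 2 + 1) + 2 * (n / p ^ 2 + 1)) := by
    refine (card_le_card hsub).trans ((card_union_le _ _).trans ?_)
    apply Nat.add_le_add
    · refine card_biUnion_le.trans (sum_le_sum (fun p hp => ?_))
      rw [hP1, mem_filter, Nat.mem_primeFactors] at hp
      exact hl2 p M (x0 j K) Y n hp.1.1 (hndM p hp.1.1 hp.2)
    · refine card_biUnion_le.trans (sum_le_sum (fun p hp => ?_))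
      rw [hP2, mem_filter, mem_Ioc] at hp
      obtain ⟨⟨hKp, _⟩, hpp, hpq⟩ := hp
      have hp2 : p ≠ 2 := by omega
      have he : ¬ (p:ℤ) ∣ 4 * j * q ^ 2 := by
        intro h
        have h1 : p ∣ 4 * j * q ^ 2 := by exact_mod_cast h
        rcases hpp.dvd_mul.1 h1 with h2 | h2
        · rcases hpp.dvd_mul.1 h2 with h3 | h3
          · have := Nat.le_of_dvd (by norm_num) h3
            omega
          · have := Nat.le_of_dvd hj1.1 h3
            omega
        · exact hpq (hpp.dvd_of_dvd_pow h2)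
      refine (card_union_le _ _).trans (Nat.add_le_add ?_ ?_)
      · exact hq2 p M (x0 j K) Y n _ hpp hp2 (hndM p hpp hKp) he
      · exact hq2 p M (x0 j K) Y n _ hpp hp2 (hndM p hpp hKp) (by rwa [dvd_neg])
  -- real bounds
  have hn0 : (0:ℝ) ≤ n := by positivity
  have b1 : ((∑ p ∈ P1, (n / p + 1) : ℕ) : ℝ) ≤ n * w K q + q.primeFactors.card := by
    push_cast
    calc ∑ p ∈ P1, (((n / p : ℕ) : ℝ) + 1) ≤ ∑ p ∈ P1, ((n:ℝ) * (1 / p) + 1) := by
          apply sum_le_sum
          intro p _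
          have := Nat.cast_div_le (α := ℝ) (m := n) (n := p)
          rw [div_eq_mul_one_div] at this
          linarith
      _ = n * w K q + P1.card := by
          rw [sum_add_distrib, ← mul_sum, sum_const, nsmul_eq_mul, mul_one]
          rfl
      _ ≤ n * w K q + q.primeFactors.card := by
          have : (P1.card : ℝ) ≤ q.primeFactors.card := by
            exact_mod_cast card_le_card (filter_subset _ _)
          linarith
  have b2 : ((∑ p ∈ P2, (2 * (n / p ^ 2 + 1) + 2 * (n / p ^ 2 + 1)) : ℕ) : ℝ) ≤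
      4 * n / K + 4 * Nat.primeCounting T := by
    push_cast
    calc ∑ p ∈ P2, (2 * (((n / p ^ 2 : ℕ) : ℝ) + 1) + 2 * (((n / p ^ 2 : ℕ) : ℝ) + 1))
        ≤ ∑ p ∈ P2, (4 * n * ((p:ℝ) ^ 2)⁻¹ + 4) := by
          apply sum_le_sum
          intro p _
          have := Nat.cast_div_le (α := ℝ) (m := n) (n := p ^ 2)
          push_cast at this
          rw [div_eq_mul_inv] at this
          linarith
      _ = 4 * n * ∑ p ∈ P2, ((p:ℝ) ^ 2)⁻¹ + 4 * P2.card := by
          rw [sum_add_distrib, ← mul_sum, sum_const, nsmul_eq_mul]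
          ring
      _ ≤ 4 * n * (K:ℝ)⁻¹ + 4 * Nat.primeCounting T := by
          apply add_le_add
          · apply mul_le_mul_of_nonneg_left _ (by positivity)
            have h1 : ∑ p ∈ P2, ((p:ℝ) ^ 2)⁻¹ ≤ ∑ p ∈ Ioc K T, ((p:ℝ) ^ 2)⁻¹ := by
              apply sum_le_sum_of_subset_of_nonneg (filter_subset _ _)
              intro m _ _
              positivity
            refine h1.trans ?_
            by_cases hKU : K ≤ T
            · have := sum_Ioc_inv_sq_le_sub (α := ℝ) (k := K) (n := T) (by omega) hKU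
              have h0 : (0:ℝ) ≤ (T:ℝ)⁻¹ := by positivity
              linarith
            · rw [Ioc_eq_empty (by omega), sum_empty]
              positivity
          · have : P2.card ≤ Nat.primeCounting T := by
              rw [Nat.primeCounting, Nat.primeCounting', Nat.count_eq_card_filter_range]
              apply card_le_card
              intro p hp
              rw [hP2, mem_filter, mem_Ioc] at hp
              rw [mem_filter, mem_range]
              exact ⟨by omega, hp.2.1⟩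
            have : (P2.card : ℝ) ≤ Nat.primeCounting T := by exact_mod_cast this
            linarith
      _ = 4 * n / K + 4 * Nat.primeCounting T := by rw [div_eq_mul_inv]
  have hTY : Y ≤ T := by
    apply Nat.le_floor
    nlinarith
  have b3 := ht₀ T (hYt.trans hTY)
  have hTu : (T:ℝ) ≤ 2 * (C * Y) := Nat.floor_le (by positivity)
  have b4 : 4 * (Nat.primeCounting T : ℝ) ≤ η / 16 * (δ * Y) := by
    have h1 : η * δ / (128 * C) * T ≤ η * δ / (128 * C) * (2 * (C * Y)) :=
      mul_le_mul_of_nonneg_left hTu (by positivity)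
    have h2 : 4 * (η * δ / (128 * C) * (2 * (C * Y))) = η / 16 * (δ * Y) := by
      field_simp
      ring
    linarith
  have hqM : (q:ℝ) ≤ M * Y := by
    have h1 : q ^ 4 < (M * Y) ^ 4 := by
      refine lt_of_le_of_lt ?_ hlt
      have : 1 ≤ 16 * j ^ 2 := by
        have := Nat.pow_le_pow_left hj1.1 2
        nlinarith
      exact Nat.le_mul_of_pos_left _ this
    have h2 : q < M * Y := lt_of_pow_lt_pow_left₀ 4 (Nat.zero_le _) h1
    exact_mod_cast h2.le
  have b5 : (q.primeFactors.card : ℝ) ≤ η / 8 * (δ * Y) - η / 8 := by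
    have h1 := card_pf hq
    have hq0 : (0:ℝ) < q := by exact_mod_cast hq
    have h2 : Real.log q ≤ Real.log M + Real.log Y := by
      rw [← Real.log_mul hM0.ne' (by linarith)]
      exact Real.log_le_log hq0 hqM
    have h3 := hlog Y hYy
    have h4 : 0 < 1 / Real.log 2 := by
      have : 0 < Real.log 2 := Real.log_pos (by norm_num)
      positivity
    have h5 := mul_le_mul_of_nonneg_left h2 h4.le
    rw [mul_add] at h5
    have h6 : η / 8 * δ * (Y:ℝ) = η / 8 * (δ * Y) := by ring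
    linarith
  have b6 : 4 * (n:ℝ) / K ≤ η / 8 * n := by
    rw [div_le_iff₀ hK0]
    have h1 := mul_le_mul_of_nonneg_left hKη hn0
    have h2 : η / 8 * n * K = n * (K * η) / 8 := by ring
    rw [h2]
    linarith
  have b7 : (n:ℝ) * w K q ≤ η / 8 * n := by
    rw [mul_comm (η / 8)]
    exact mul_le_mul_of_nonneg_left hw hn0
  have hfin : (((Ico Y (Y + n)).filter (fun y => ¬ Squarefree (val j (xx j K y) q))).card : ℝ) ≤
      ((∑ p ∈ P1, (n / p + 1) + ∑ p ∈ P2, (2 * (n / p ^ 2 + 1) + 2 * (n / p ^ 2 + 1)) : ℕ) : ℝ) := by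
    exact_mod_cast hc1
  rw [Nat.cast_add] at hfin
  have h8 : δ * Y ≤ n + 1 := hnl.le
  have h9 : η / 8 * (δ * Y) ≤ η / 8 * (n + 1) := mul_le_mul_of_nonneg_left h8 (by positivity)
  have h10 : η * 2 ≤ η * (Y * δ) := mul_le_mul_of_nonneg_left hYd hη.le
  rw [mul_add, mul_one] at h9
  have h11 : η * (Y * δ) = η * (δ * Y) := by ring
  rw [h11] at h10
  have h12 : η / 16 * (δ * Y) = η * (δ * Y) / 16 := by ring
  have h13 : η / 8 * (δ * Y) = η * (δ * Y) / 8 := by ring
  have h14 : η / 8 * (n:ℝ) = η * n / 8 := by ring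
  linarith

end Pool.Agent.W816.CP
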